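import Pool.Agent.helper90.IV.Spec

/-!
# Row GH1 (MP_26dbae_co): heavy 2-walks in the pair graph
-/

set_option autoImplicit false

open scoped BigOperators

namespace Pool.Agent.helper67.IV

open Pool.Agent.helper23.TH Pool.Agent.KS Pool.Agent.IV

noncomputable section

open Classical

/-- the heavy relation -/
def Hv {V : Type} [Fintype V] (A : V → V → Prop) (C : ℕ) (b b' : V) : Prop := b ≠ b' ∧ C ≤ cd A b b'

theorem cd_comm {V : Type} [Fintype V] (A : V → V → Prop) (b b' : V) : cd A b b' = cd A b' b := by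
  unfold cd
  refine congrArg Finset.card ?_
  ext m
  simp only [Finset.mem_filter, Finset.mem_univ, true_and]
  exact and_comm

theorem Hv_symm {V : Type} [Fintype V] {A : V → V → Prop} {C : ℕ} {b b' : V} (h : Hv A C b b') :
    Hv A C b' b := ⟨h.1.symm, by rw [cd_comm]; exact h.2⟩

/-- few pairs with a bad first entry -/
theorem bad_le {V : Type} [Fintype V] (N Good : Finset V) (S : Finset (V × V)) (f g : V × V → V)
    (R : V → V → Prop) (θ : ℝ) (hfg : ∀ x ∈ S, ∀ y ∈ S, f x = f y → g x = g y → x = y)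
    (h1 : ∀ x ∈ S, f x ∈ N ∧ f x ∉ Good) (h2 : ∀ x ∈ S, g x ∈ N ∧ R (f x) (g x))
    (hθ : ∀ b ∈ N, b ∉ Good → ((N.filter (R b)).card : ℝ) ≤ θ) (hθ0 : 0 ≤ θ) :
    (S.card : ℝ) ≤ N.card * θ := by
  have hm : ∀ x ∈ S, f x ∈ N.filter (fun b => b ∉ Good) := by
    intro x hx
    rw [Finset.mem_filter]
    exact h1 x hx
  rw [Finset.card_eq_sum_card_fiberwise (f := f) (t := N.filter (fun b => b ∉ Good)) hm, Nat.cast_sum]
  calc ∑ b ∈ N.filter (fun b => b ∉ Good), ((S.filter fun x => f x = b).card : ℝ)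
      ≤ ∑ b ∈ N.filter (fun b => b ∉ Good), θ := by
        refine Finset.sum_le_sum fun b hb => ?_
        rw [Finset.mem_filter] at hb
        refine le_trans ?_ (hθ b hb.1 hb.2)
        have : (S.filter fun x => f x = b).card ≤ (N.filter (R b)).card := by
          refine Finset.card_le_card_of_injOn g ?_ ?_
          · intro x hx
            have hx' := Finset.mem_filter.1 (Finset.mem_coe.1 hx)
            refine Finset.mem_coe.2 (Finset.mem_filter.2 ⟨(h2 x hx'.1).1, ?_⟩)
            rw [← hx'.2]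
            exact (h2 x hx'.1).2
          · intro x hx y hy hxy
            have hx' := Finset.mem_filter.1 (Finset.mem_coe.1 hx)
            have hy' := Finset.mem_filter.1 (Finset.mem_coe.1 hy)
            exact hfg x hx'.1 y hy'.1 (hx'.2.trans hy'.2.symm) hxy
        exact_mod_cast this
    _ = (N.filter (fun b => b ∉ Good)).card * θ := by rw [Finset.sum_const, nsmul_eq_mul]
    _ ≤ N.card * θ := by
        refine mul_le_mul_of_nonneg_right ?_ hθ0
        exact_mod_cast Finset.card_filter_le _ _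

/-- many elements of `N` have many partners in `Z` -/
theorem avg {V : Type} (N Z : Finset V) (R : V → V → Prop) (t : ℕ) (θ M : ℝ)
    (hz : ∀ z ∈ Z, θ ≤ ((N.filter (R z)).card : ℝ)) (hN : (N.card : ℝ) ≤ M) :
    (Z.card : ℝ) * θ ≤ ((N.filter fun w => t ≤ (Z.filter fun z => R z w).card).card : ℝ) * Z.card + M * t := by
  have hsw : ∑ z ∈ Z, (N.filter (R z)).card = ∑ w ∈ N, (Z.filter fun z => R z w).card :=
    Finset.sum_card_bipartiteAbove_eq_sum_card_bipartiteBelow (r := R)
  have h1 : (Z.card : ℝ) * θ ≤ ∑ z ∈ Z, ((N.filter (R z)).card : ℝ) := by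
    rw [← nsmul_eq_mul, ← Finset.sum_const]
    exact Finset.sum_le_sum hz
  have h2 : ∑ z ∈ Z, ((N.filter (R z)).card : ℝ) = ∑ w ∈ N, ((Z.filter fun z => R z w).card : ℝ) := by
    exact_mod_cast hsw
  have h3 : ∑ w ∈ N, ((Z.filter fun z => R z w).card : ℝ) ≤
      ((N.filter fun w => t ≤ (Z.filter fun z => R z w).card).card : ℝ) * Z.card + N.card * t := by
    rw [← Finset.sum_filter_add_sum_filter_not N (fun w => t ≤ (Z.filter fun z => R z w).card)]
    refine add_le_add ?_ ?_
    · rw [← nsmul_eq_mul, ← Finset.sum_const]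
      refine Finset.sum_le_sum fun w _ => ?_
      exact_mod_cast Finset.card_filter_le _ _
    · calc ∑ w ∈ N.filter (fun w => ¬ t ≤ (Z.filter fun z => R z w).card), ((Z.filter fun z => R z w).card : ℝ)
          ≤ ∑ w ∈ N.filter (fun w => ¬ t ≤ (Z.filter fun z => R z w).card), (t : ℝ) := by
            refine Finset.sum_le_sum fun w hw => ?_
            have := (Finset.mem_filter.1 hw).2
            have h' : (Z.filter fun z => R z w).card ≤ t := by omega
            exact_mod_cast h'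
        _ = (N.filter (fun w => ¬ t ≤ (Z.filter fun z => R z w).card)).card * t := by
            rw [Finset.sum_const, nsmul_eq_mul]
        _ ≤ N.card * t := by
            refine mul_le_mul_of_nonneg_right ?_ (Nat.cast_nonneg t)
            exact_mod_cast Finset.card_filter_le _ _
  have h4 : (N.card : ℝ) * t ≤ M * t := mul_le_mul_of_nonneg_right hN (Nat.cast_nonneg t)
  linarith

/-- an injection of `Fin t` into a finset with at least `t` elements -/
theorem pick {V : Type} (F : Finset V) (t : ℕ) (h : t ≤ F.card) :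
    ∃ w : Fin t → V, Function.Injective w ∧ ∀ i, w i ∈ F := by
  obtain ⟨T, hT, hTc⟩ := Finset.exists_subset_card_eq h
  refine ⟨fun i => ((T.equivFinOfCardEq hTc).symm i : V), ?_, ?_⟩
  · intro i j hij
    exact (T.equivFinOfCardEq hTc).symm.injective (Subtype.ext hij)
  · intro i
    exact hT ((T.equivFinOfCardEq hTc).symm i).2

/-- the second centre -/
theorem centre {V : Type} [Fintype V] (A : V → V → Prop) (hs : ∀ u w, A u w → A w u) (a : V)
    (C q₀ : ℕ) (D κ ε : ℝ) (hD : 0 < D) (hκ : 0 < κ) (hC : 1 ≤ C) (hC2 : 2 * κ ^ 2 * q₀ < (C - 1 : ℝ) * ε)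
    (Good : Finset V) (PP : Finset (V × V)) (hG : (Good.card : ℝ) ≤ κ * D)
    (hd : ∀ v, (deg A v : ℝ) ≤ κ * D) (hP1 : ∀ x ∈ PP, x.1 ∈ Good ∧ x.2 ∈ Good ∧ C ≤ cd A x.1 x.2)
    (hP2 : ε / 2 * D ^ 2 ≤ PP.card) :
    ∃ a', a' ≠ a ∧ q₀ ≤ (Good.filter fun z => A a' z).card := by
  by_contra hcon
  push Not at hcon
  -- lower bound
  have h1 : (PP.card : ℝ) * (C - 1) ≤
      ∑ x ∈ PP, (((Finset.univ.erase a).filter fun m => A m x.1 ∧ A m x.2).card : ℝ) := by
    rw [← nsmul_eq_mul, ← Finset.sum_const]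
    refine Finset.sum_le_sum fun x hx => ?_
    have h := (hP1 x hx).2.2
    unfold cd at h
    have h' : (Finset.univ.filter fun m => A x.1 m ∧ A x.2 m).erase a ⊆
        (Finset.univ.erase a).filter fun m => A m x.1 ∧ A m x.2 := by
      intro m hm
      rw [Finset.mem_erase, Finset.mem_filter] at hm
      rw [Finset.mem_filter, Finset.mem_erase]
      exact ⟨⟨hm.1, Finset.mem_univ _⟩, hs _ _ hm.2.2.1, hs _ _ hm.2.2.2⟩
    have h2 := Finset.card_le_card h'
    have h3 : (Finset.univ.filter fun m => A x.1 m ∧ A x.2 m).card - 1 ≤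
        ((Finset.univ.filter fun m => A x.1 m ∧ A x.2 m).erase a).card := Finset.pred_card_le_card_erase
    have h4 : C ≤ ((Finset.univ.erase a).filter fun m => A m x.1 ∧ A m x.2).card + 1 := by omega
    have h5 : (C : ℝ) ≤ ((Finset.univ.erase a).filter fun m => A m x.1 ∧ A m x.2).card + 1 := by
      exact_mod_cast h4
    linarith
  have h2 : ∑ x ∈ PP, ((Finset.univ.erase a).filter fun m => A m x.1 ∧ A m x.2).card =
      ∑ m ∈ Finset.univ.erase a, (PP.filter fun x => A m x.1 ∧ A m x.2).card :=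
    Finset.sum_card_bipartiteAbove_eq_sum_card_bipartiteBelow
      (r := fun (x : V × V) (m : V) => A m x.1 ∧ A m x.2)
  have h2' : ∑ x ∈ PP, (((Finset.univ.erase a).filter fun m => A m x.1 ∧ A m x.2).card : ℝ) =
      ∑ m ∈ Finset.univ.erase a, ((PP.filter fun x => A m x.1 ∧ A m x.2).card : ℝ) := by
    exact_mod_cast h2
  have h3 : ∑ m ∈ Finset.univ.erase a, ((PP.filter fun x => A m x.1 ∧ A m x.2).card : ℝ) ≤
      ∑ m ∈ Finset.univ.erase a, (q₀ : ℝ) * (Good.filter fun z => A m z).card := by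
    refine Finset.sum_le_sum fun m hm => ?_
    have hq := hcon m (Finset.ne_of_mem_erase hm)
    have h5 : (PP.filter fun x => A m x.1 ∧ A m x.2).card ≤
        ((Good.filter fun z => A m z) ×ˢ (Good.filter fun z => A m z)).card := by
      refine Finset.card_le_card ?_
      intro x hx
      rw [Finset.mem_filter] at hx
      rw [Finset.mem_product, Finset.mem_filter, Finset.mem_filter]
      exact ⟨⟨(hP1 x hx.1).1, hx.2.1⟩, (hP1 x hx.1).2.1, hx.2.2⟩
    rw [Finset.card_product] at h5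
    have h6 : (Good.filter fun z => A m z).card * (Good.filter fun z => A m z).card ≤
        q₀ * (Good.filter fun z => A m z).card := Nat.mul_le_mul_right _ hq.le
    exact_mod_cast h5.trans h6
  have h4 : ∑ m ∈ Finset.univ.erase a, (q₀ : ℝ) * (Good.filter fun z => A m z).card ≤
      q₀ * (κ * D * (κ * D)) := by
    rw [← Finset.mul_sum]
    refine mul_le_mul_of_nonneg_left ?_ (Nat.cast_nonneg _)
    have h5 : ∑ m ∈ Finset.univ.erase a, ((Good.filter fun z => A m z).card : ℝ) ≤
        ∑ m : V, ((Good.filter fun z => A m z).card : ℝ) :=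
      Finset.sum_le_sum_of_subset_of_nonneg (Finset.subset_univ _) (fun _ _ _ => Nat.cast_nonneg _)
    have h6 : ∑ m : V, (Good.filter fun z => A m z).card =
        ∑ z ∈ Good, ((Finset.univ : Finset V).filter fun m => A m z).card :=
      Finset.sum_card_bipartiteAbove_eq_sum_card_bipartiteBelow (r := A)
    have h6' : ∑ m : V, ((Good.filter fun z => A m z).card : ℝ) =
        ∑ z ∈ Good, (((Finset.univ : Finset V).filter fun m => A m z).card : ℝ) := by
      exact_mod_cast h6
    have h7 : ∑ z ∈ Good, (((Finset.univ : Finset V).filter fun m => A m z).card : ℝ) ≤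
        ∑ z ∈ Good, κ * D := by
      refine Finset.sum_le_sum fun z _ => ?_
      refine le_trans ?_ (hd z)
      unfold deg
      have : ((Finset.univ : Finset V).filter fun m => A m z).card ≤
          ((Finset.univ : Finset V).filter fun m => A z m).card := by
        refine Finset.card_le_card ?_
        intro m hm
        rw [Finset.mem_filter] at hm ⊢
        exact ⟨hm.1, hs _ _ hm.2⟩
      exact_mod_cast this
    rw [Finset.sum_const, nsmul_eq_mul] at h7
    have h8 : (Good.card : ℝ) * (κ * D) ≤ κ * D * (κ * D) :=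
      mul_le_mul_of_nonneg_right hG (by positivity)
    linarith
  have h9 : (PP.card : ℝ) * (C - 1) ≤ q₀ * (κ * D * (κ * D)) := by
    rw [h2'] at h1
    exact h1.trans (h3.trans h4)
  have hC' : (0 : ℝ) ≤ (C : ℝ) - 1 := by
    have : (1 : ℝ) ≤ C := by exact_mod_cast hC
    linarith
  have h10 : ε / 2 * D ^ 2 * (C - 1) ≤ q₀ * (κ * D * (κ * D)) :=
    (mul_le_mul_of_nonneg_right hP2 hC').trans h9
  have hD2 : (0 : ℝ) < D ^ 2 := by positivity
  have h11 : D ^ 2 * ((C - 1 : ℝ) * ε) ≤ D ^ 2 * (2 * κ ^ 2 * q₀) := by nlinarith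
  have h12 := le_of_mul_le_mul_left h11 hD2
  linarith

/-- **GH1**. -/
theorem GH1 : GH1_stmt := by
  intro t κ ε hκ hε C₀
  have hκ0 : (0 : ℝ) < κ := lt_of_lt_of_le one_pos hκ
  obtain ⟨q₀, hq₀⟩ := exists_nat_ge (8 * κ ^ 2 * t / ε + 1)
  have hq1 : 8 * κ ^ 2 * t ≤ q₀ * ε := by
    have : 8 * κ ^ 2 * t / ε ≤ q₀ := by linarith
    rwa [div_le_iff₀ hε] at this
  have hq2 : (1 : ℝ) ≤ q₀ := by
    have : (0 : ℝ) ≤ 8 * κ ^ 2 * t / ε := by positivity
    linarith
  obtain ⟨C₁, hC₁⟩ := exists_nat_ge (2 * κ ^ 2 * q₀ / ε)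
  refine ⟨C₀ + C₁ + 2, 1 + (t + 2) * 2 ^ q₀ * (8 * κ) / ε, by omega, ?_⟩
  set C := C₀ + C₁ + 2 with hCdef
  have hC2 : 2 * κ ^ 2 * q₀ < ((C : ℝ) - 1) * ε := by
    rw [div_le_iff₀ hε] at hC₁
    have h0 : (C : ℝ) = C₀ + C₁ + 2 := by rw [hCdef]; push_cast; ring
    have h1 : (0 : ℝ) ≤ C₀ := Nat.cast_nonneg _
    rw [h0]
    nlinarith
  intro V X _ A p q D hPG hV hD hlo hhi hhw
  have hpos : (0 : ℝ) ≤ (t + 2) * 2 ^ q₀ * (8 * κ) / ε := by positivity
  have hD1 : 1 ≤ D := by linarith
  have hD0 : 0 < D := by linarith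
  have hDbig : ((t : ℝ) + 2) * 2 ^ q₀ ≤ ε * D / (8 * κ) := by
    rw [le_div_iff₀ (by positivity)]
    have h1 : (t + 2) * 2 ^ q₀ * (8 * κ) / ε ≤ D := by linarith
    rw [div_le_iff₀ hε] at h1
    linarith
  -- the first centre
  have hne : (Finset.univ : Finset V).Nonempty := by
    rw [← Finset.card_pos, Finset.card_univ]
    exact hV
  obtain ⟨a, _, ha⟩ : ∃ a ∈ (Finset.univ : Finset V), ε * D ^ 2 ≤
      ((Finset.univ.filter fun p : V × V => A a p.1 ∧ A a p.2 ∧ p.1 ≠ p.2 ∧ C ≤ cd A p.1 p.2).card : ℝ) := by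
    refine Finset.exists_le_of_sum_le hne ?_
    rw [Finset.sum_const, nsmul_eq_mul, Finset.card_univ]
    unfold hw2 at hhw
    push_cast at hhw
    linarith
  set N : Finset V := Finset.univ.filter fun w => A a w with hN
  have hNc : (N.card : ℝ) ≤ κ * D := hhi a
  set θ : ℝ := ε * D / (4 * κ) with hθ
  have hθ0 : 0 ≤ θ := by positivity
  set Good : Finset V := N.filter fun z => θ ≤ ((N.filter (Hv A C z)).card : ℝ) with hGood
  have hGN : Good ⊆ N := Finset.filter_subset _ _
  set P0 : Finset (V × V) :=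
    Finset.univ.filter fun p : V × V => A a p.1 ∧ A a p.2 ∧ p.1 ≠ p.2 ∧ C ≤ cd A p.1 p.2 with hP0
  have hmemN : ∀ x, x ∈ N ↔ A a x := by
    intro x
    rw [hN, Finset.mem_filter]
    simp
  have hP0m : ∀ x ∈ P0, x.1 ∈ N ∧ x.2 ∈ N ∧ Hv A C x.1 x.2 := by
    intro x hx
    rw [hP0, Finset.mem_filter] at hx
    exact ⟨(hmemN _).2 hx.2.1, (hmemN _).2 hx.2.2.1, hx.2.2.2.1, hx.2.2.2.2⟩
  have hbadθ : ∀ b ∈ N, b ∉ Good → ((N.filter (Hv A C b)).card : ℝ) ≤ θ := by
    intro b hb hb'
    by_contra hlt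
    push Not at hlt
    exact hb' (by rw [hGood, Finset.mem_filter]; exact ⟨hb, hlt.le⟩)
  set PP := P0.filter fun x => x.1 ∈ Good ∧ x.2 ∈ Good with hPP
  have hB1 : ((P0.filter fun x => x.1 ∉ Good).card : ℝ) ≤ N.card * θ := by
    refine bad_le N Good _ Prod.fst Prod.snd (Hv A C) θ ?_ ?_ ?_ hbadθ hθ0
    · intro x _ y _ h1 h2
      exact Prod.ext h1 h2
    · intro x hx
      rw [Finset.mem_filter] at hx
      exact ⟨(hP0m x hx.1).1, hx.2⟩
    · intro x hx
      rw [Finset.mem_filter] at hx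
      exact ⟨(hP0m x hx.1).2.1, (hP0m x hx.1).2.2⟩
  have hB2 : ((P0.filter fun x => x.2 ∉ Good).card : ℝ) ≤ N.card * θ := by
    refine bad_le N Good _ Prod.snd Prod.fst (Hv A C) θ ?_ ?_ ?_ hbadθ hθ0
    · intro x _ y _ h1 h2
      exact Prod.ext h2 h1
    · intro x hx
      rw [Finset.mem_filter] at hx
      exact ⟨(hP0m x hx.1).2.1, hx.2⟩
    · intro x hx
      rw [Finset.mem_filter] at hx
      exact ⟨(hP0m x hx.1).1, Hv_symm (hP0m x hx.1).2.2⟩
  have hcover : P0.card ≤ PP.card + (P0.filter fun x => x.1 ∉ Good).card +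
      (P0.filter fun x => x.2 ∉ Good).card := by
    have hsub : P0 ⊆ (PP ∪ (P0.filter fun x => x.1 ∉ Good)) ∪ (P0.filter fun x => x.2 ∉ Good) := by
      intro x hx
      by_cases h1 : x.1 ∈ Good
      · by_cases h2 : x.2 ∈ Good
        · exact Finset.mem_union_left _ (Finset.mem_union_left _ (Finset.mem_filter.2 ⟨hx, h1, h2⟩))
        · exact Finset.mem_union_right _ (Finset.mem_filter.2 ⟨hx, h2⟩)
      · exact Finset.mem_union_left _ (Finset.mem_union_right _ (Finset.mem_filter.2 ⟨hx, h1⟩))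
    refine (Finset.card_le_card hsub).trans ((Finset.card_union_le _ _).trans ?_)
    exact Nat.add_le_add_right (Finset.card_union_le _ _) _
  have hcover' : (P0.card : ℝ) ≤ PP.card + (P0.filter fun x => x.1 ∉ Good).card +
      (P0.filter fun x => x.2 ∉ Good).card := by exact_mod_cast hcover
  have hNθ : (N.card : ℝ) * θ ≤ ε / 4 * D ^ 2 := by
    have h1 : (N.card : ℝ) * θ ≤ κ * D * θ := mul_le_mul_of_nonneg_right hNc hθ0
    have h2 : κ * D * θ = ε / 4 * D ^ 2 := by
      rw [hθ]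
      field_simp
    linarith
  have hPPc : ε / 2 * D ^ 2 ≤ PP.card := by linarith
  obtain ⟨a', haa', hg⟩ := centre A hPG.symm a C q₀ D κ ε hD0 hκ0 (by omega) hC2 Good PP
    ((by exact_mod_cast Finset.card_le_card hGN : (Good.card : ℝ) ≤ N.card).trans hNc) hhi (by
      intro x hx
      rw [hPP, Finset.mem_filter] at hx
      exact ⟨hx.2.1, hx.2.2, (hP0m x hx.1).2.2.2⟩) hPPc
  obtain ⟨Z, hZ, hZc⟩ := Finset.exists_subset_card_eq hg
  have hZG : ∀ z ∈ Z, z ∈ Good ∧ A a' z := by
    intro z hz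
    have := hZ hz
    rw [Finset.mem_filter] at this
    exact this
  have hav := avg N Z (Hv A C) t θ (κ * D) (by
    intro z hz
    have := (hZG z hz).1
    rw [hGood, Finset.mem_filter] at this
    exact this.2) hNc
  set W' := N.filter fun w => t ≤ (Z.filter fun z => Hv A C z w).card with hW'
  rw [hZc] at hav
  have hWc : ε * D / (8 * κ) ≤ W'.card := by
    have hq0 : (0 : ℝ) < q₀ := lt_of_lt_of_le one_pos hq2
    have h1 : κ * D * t ≤ q₀ * (ε * D / (8 * κ)) := by
      have h2 : (q₀ : ℝ) * (ε * D / (8 * κ)) = (q₀ * ε) * D / (8 * κ) := by ring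
      rw [h2, le_div_iff₀ (by positivity)]
      have h3 := mul_le_mul_of_nonneg_right hq1 hD0.le
      nlinarith
    have h2 : (q₀ : ℝ) * θ = q₀ * (ε * D / (8 * κ)) + q₀ * (ε * D / (8 * κ)) := by
      rw [hθ]
      field_simp
      ring
    have h3 : (q₀ : ℝ) * (ε * D / (8 * κ)) ≤ q₀ * W'.card := by linarith
    exact le_of_mul_le_mul_left h3 hq0
  have hWn : (Z.powerset).card * (t + 2) ≤ W'.card := by
    rw [Finset.card_powerset, hZc]
    have : ((2 ^ q₀ * (t + 2) : ℕ) : ℝ) ≤ W'.card := by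
      push_cast
      linarith
    exact_mod_cast this
  have hch : ∀ w : V, ∃ S : Finset V, w ∈ W' → S ⊆ (Z.filter fun z => Hv A C z w) ∧ S.card = t := by
    intro w
    by_cases hw : w ∈ W'
    · have hw2 := hw
      rw [hW', Finset.mem_filter] at hw2
      obtain ⟨S, hS, hSc⟩ := Finset.exists_subset_card_eq hw2.2
      exact ⟨S, fun _ => ⟨hS, hSc⟩⟩
    · exact ⟨∅, fun h => absurd h hw⟩
  choose S hS using hch
  obtain ⟨S₀, hS₀, hF⟩ := Finset.exists_le_card_fiber_of_mul_le_card_of_maps_to (s := W') (t := Z.powerset)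
    (f := S) (n := t + 2) (by
      intro w hw
      rw [Finset.mem_powerset]
      exact ((hS w hw).1).trans (Finset.filter_subset _ _)) ⟨∅, Finset.empty_mem_powerset _⟩ hWn
  set F := W'.filter fun w => S w = S₀ with hFdef
  have hFm : ∀ w ∈ F, w ∈ N ∧ (∀ z ∈ S₀, Hv A C z w) ∧ S₀.card = t := by
    intro w hw
    rw [hFdef, Finset.mem_filter] at hw
    have h1 := hS w hw.1
    rw [hw.2] at h1
    refine ⟨(Finset.mem_filter.1 hw.1).1, fun z hz => ?_, h1.2⟩
    exact (Finset.mem_filter.1 (h1.1 hz)).2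
  have hS₀c : S₀.card = t := by
    obtain ⟨w, hw⟩ : F.Nonempty := by
      rw [← Finset.card_pos]
      omega
    exact (hFm w hw).2.2
  have hF' : t ≤ (F.filter fun w => ¬ Co p q a' w).card := by
    have hone1 : (F.filter fun w => p a' = p w).card ≤ 1 := by
      rw [Finset.card_le_one]
      intro x hx y hy
      rw [Finset.mem_filter] at hx hy
      exact hPG.inj1 a x y ((hmemN x).1 (hFm x hx.1).1) ((hmemN y).1 (hFm y hy.1).1)
        (hx.2.symm.trans hy.2)
    have hone2 : (F.filter fun w => q a' = q w).card ≤ 1 := by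
      rw [Finset.card_le_one]
      intro x hx y hy
      rw [Finset.mem_filter] at hx hy
      exact hPG.inj2 a x y ((hmemN x).1 (hFm x hx.1).1) ((hmemN y).1 (hFm y hy.1).1)
        (hx.2.symm.trans hy.2)
    have hsub : F ⊆ ((F.filter fun w => ¬ Co p q a' w) ∪ (F.filter fun w => p a' = p w)) ∪
        (F.filter fun w => q a' = q w) := by
      intro w hw
      by_cases h : Co p q a' w
      · rcases h with h | h
        · exact Finset.mem_union_left _ (Finset.mem_union_right _ (Finset.mem_filter.2 ⟨hw, h⟩))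
        · exact Finset.mem_union_right _ (Finset.mem_filter.2 ⟨hw, h⟩)
      · exact Finset.mem_union_left _ (Finset.mem_union_left _ (Finset.mem_filter.2 ⟨hw, h⟩))
    have h1 := (Finset.card_le_card hsub).trans (Finset.card_union_le _ _)
    have h2 := Finset.card_union_le (F.filter fun w => ¬ Co p q a' w) (F.filter fun w => p a' = p w)
    omega
  obtain ⟨w, hwi, hw⟩ := pick _ t hF'
  obtain ⟨z, hzi, hz⟩ := pick S₀ t hS₀c.ge
  have hwF : ∀ i, w i ∈ F ∧ ¬ Co p q a' (w i) := fun i => Finset.mem_filter.1 (hw i)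
  have hzZ : ∀ i, z i ∈ Z := fun i => (Finset.mem_powerset.1 hS₀) (hz i)
  have hH : ∀ i j, Hv A C (z j) (w i) := fun i j => (hFm (w i) (hwF i).1).2.1 (z j) (hz j)
  refine ⟨a, a', w, z, haa'.symm, hwi, hzi, fun i j h => (hH i j).1 h.symm, ?_, ?_, ?_, ?_, ?_⟩
  · intro i
    exact (hmemN _).1 (hFm (w i) (hwF i).1).1
  · intro i
    exact (hmemN _).1 (hGN (hZG _ (hzZ i)).1)
  · intro i
    exact (hZG _ (hzZ i)).2
  · intro i
    exact (hwF i).2
  · intro i j
    rw [cd_comm]
    exact (hH i j).2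

end

end Pool.Agent.helper67.IV
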